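import Mathlib
import Pool.Agent.TH170.GS.Main
import Pool.Agent.TH170.GS.TB2
import Pool.Agent.Y1.KN.All
import Pool.Agent.Y1.KN.Use

/-!
# Semisimplicity of the eigenvalue one on the étale homology of the singular and open varieties generated
# by abelian varieties with almost all slope types of all CM fields

An abelian variety over the field with `p ^ a` elements is modelled by `RedAV` (Honda, Tate): a
finite product of CM types `(E i, Φ i)` with Weil numbers `π i ∈ E i` that satisfy the formula of
Shimura and Taniyama; its cohomology of degree `n`, with coefficients in an algebraically closed field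
`Ω`, consists of the alternating `n`-forms on `Ω ⊗ H_1`, on which the Frobenius endomorphism acts by
`π`. We fix an isomorphism `ν` of the algebraic closure of `ℚ_p` with `ℂ`; it defines a `p`-adic
valuation of `ℂ`, with the value one at `p`.

Let `K i` be finitely many CM fields, of degrees `2 g i`, that are pairwise independent: for `i ≠ k`
and all complex embeddings `φ` of `K i` and `ψ` of `K k` some automorphism of `ℂ` is the identity on
`φ (K i)` and the complex conjugation on `ψ (K k)` (this is no condition for one field). Nothing is
assumed about their Galois groups. Let `M i` be functions with nonzero integral values, all of which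
divide `n i`, on the complex embeddings of `K i`, invariant under complex conjugation. A CM type
`Φ i` of `K i` (there are `2 ^ (g i)` types), `M i` and a real number `κ i ≠ 0` prescribe the slopes
`(a + κ M) / 2` (at the embeddings in `Φ i`) and `(a - κ M) / 2` (outside of `Φ i`) of a Weil number in
`K i`; `M = 1`, `κ = a` is the ordinary case.

There are `2 ^ (∑ i, g i)` families of CM types `Φ i` of the fields `K i`. For such a family let `𝒞`
(`OfTypes`) be the class of the abelian varieties `Y` each of whose factors is supersingular or has a
Frobenius endomorphism some power of which is, for some `i`, a Weil number in `K i` with the slopes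
prescribed by `Φ i`, `M i` and some real number `κ i ≠ 0` (which depends only on `Y` and `i`).

`Homology Ω V` are data of motivic homology `M X n j = H_n^M(X, ℚ(j)) = CH_j(X, n - 2 j) ⊗ ℚ` (higher
Chow groups) and of `ℓ`-adic homology `E X n j = H_n(X, ℚ_ℓ(j))` of schemes `X : V` of finite type over
finite fields, with the Frobenius and the regulator. Let `𝒢` (`Generated`) be the smallest class of
schemes that contains those with the homology groups of abelian varieties in `𝒞`
(`IsAbelianOfTypes`), that is closed under direct summands of finite sums of twists of motives, and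
that contains all of a closed subscheme `Z` of `X`, `X` and `X ∖ Z` if it contains two of them. It
contains for instance all products of curves with Jacobian varieties in `𝒞` and of open subsets of such
curves, and their symmetric powers.

A family of types is exceptional (`exceptionalFamilies ν K M`) if the following fails (`Holds`): for all
`X` in `𝒢`, singular or not, proper or not, all `i` and all `ℓ` the statement `SS_i(X)` holds: the
eigenvalue one of Frobenius on `H_(2 i)(X, ℚ_ℓ(i))` is semisimple, `ker (F - 1)² = ker (F - 1)`. More
generally this is so for `H_m(X, ℚ_ℓ(j))`, for all `m` and `j`.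

Here `E X m j = H_m(X, ℚ_ℓ(j))` is the `ℓ`-adic homology. For an extension of two such spaces with
semisimple eigenvalue one this eigenvalue need not be semisimple, so this is not a formal consequence of
the theorem of Weil for abelian varieties: it is used that the invariant elements are classes of
elements of the motivic homology.

The theorem bounds the number of the exceptional families: it is at most
`2 ^ (∑ i, g i) * ∑ i, C * (n i) ^ 2 * rate (K i) (g i) (q i)`, with an absolute constant `C`. Here
`q i` is any prime factor of `g i` (or `q i = 1`), and `rate K g q` is `(1 + log (2 g)) ^ 16` times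
the smaller of the numbers

* `W (K) / √g`, where (second part of the theorem, `WeightEstimate`) `W (K) ≤ N ^ 2 * D ^ (1 / 4)`;
  `N` is the number of the CM subfields of `K` (with `K`) and `D` is the largest degree of a CM
  subfield of `K` that is normal over `ℚ` with a nonabelian Galois group (`D = 1` if there are none);
* `√g / q`.

So the exceptional types are a proportion `O (n ^ 2 * g ^ (-1 / 4) * (log g) ^ 16)` of all types of
all CM fields with a bounded number of CM subfields, and `O (n ^ 2 * g ^ (-δ) * (log g) ^ 16)` of the
types of all CM fields `K`, with any number of subfields, whose degree is divisible by a prime number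
`q ≥ g ^ (1 / 2 + δ)`. For the number `W (K)` (`subfieldWeight K`) and the proof of the bound see the
starting result `MP_ee618e_ag.AllCMFields` (by helper1 and others of the team).

Properties of the theory of cycles that are used for the abelian varieties (`IsChow`, `IsMotivic`):
Poincaré duality, the formal properties of correspondences, the nilpotence of homologically trivial
correspondences (Kimura), the operation of the Frobenius endomorphism on higher Chow groups, the
vanishing of the higher rational `K`-groups of a finite field (Quillen), and the theorem of Tate on
divisors. The passage from the Tate conjecture to all degrees and to the class `𝒢` is due to Soulé,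
Geisser, Kahn and Jannsen and was formalized in the starting files.
-/

set_option autoImplicit false

namespace Pool.Agent.Results.MP_16ef92_ag.AllCMFields

open NumberField Module Pool.Agent.H204R3.CM Pool.Agent.H977R3.CM Pool.Agent.TH170 Pool.Agent.Y1.KN
  Pool.Agent.W495.TA Pool.Agent.W495.FM

/-- The eigenvalue one of Frobenius on étale homology is semisimple, for all schemes generated by
abelian varieties with the slope types `Φ`. -/
def Holds {p : ℕ} [Fact p.Prime] (ν : PadicAlgCl p ≃+* ℂ) {I : Type} (K : I → Type)
    [∀ i, Field (K i)] (M : ∀ i, (K i →+* ℂ) → ℤ) (Φ : ∀ i, Set (K i →+* ℂ)) : Prop :=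
  ∀ (Ω : Type) [Field Ω] [IsAlgClosed Ω] [CharZero Ω] (V : Type) (T : Homology Ω V),
    IsHomology T → ∀ X : V, Generated T (GS.IsAbelianOfTypes ν K M Φ T) X →
      ∀ (m j : ℤ) (e : T.E X m j),
        T.frob X m j (T.frob X m j e - e) = T.frob X m j e - e → T.frob X m j e = e

/-- The exceptional families of CM types. -/
def exceptionalFamilies {p : ℕ} [Fact p.Prime] (ν : PadicAlgCl p ≃+* ℂ) {I : Type} (K : I → Type)
    [∀ i, Field (K i)] (M : ∀ i, (K i →+* ℂ) → ℤ) : Set (∀ i, Set (K i →+* ℂ)) :=
  {Φ | (∀ i, IsCMType (Φ i)) ∧ ¬ Holds ν K M Φ}

theorem holds_of {p : ℕ} [Fact p.Prime] {ν : PadicAlgCl p ≃+* ℂ} {I : Type} (K : I → Type)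
    [∀ i, Field (K i)] (M : ∀ i, (K i →+* ℂ) → ℤ) (Φ : ∀ i, Set (K i →+* ℂ))
    (h : ∀ Y : RedAV p ν, GS.OfTypes K M Φ Y → ∃ Z : RedAV p ν,
      TH117.BL.HasElementaryRelations Z ∧ TH117.BL.IsPowersTimesSupersingular Z Y) :
    Holds ν K M Φ :=
  fun _ _ _ _ _ _ hT _ hX m j e he => ((GS.tb_types h hT hX) m j).2.2 e he

/-- **The eigenvalue one of Frobenius on étale homology is semisimple, in all degrees and for all twists,
for all schemes (singular, open) generated by abelian varieties with almost all slope types of all CM
fields with few CM subfields, and of all CM fields whose degree has a large prime factor.** -/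
theorem result :
    (∃ C : ℝ, 0 ≤ C ∧ ∀ (p : ℕ) [Fact p.Prime] (ν : PadicAlgCl p ≃+* ℂ) (I : Type) [Fintype I]
      (K : I → Type) [∀ i, Field (K i)] [∀ i, NumberField (K i)] [∀ i, IsCMField (K i)]
      (M : ∀ i, (K i →+* ℂ) → ℤ) (n g q : I → ℕ), PairwiseIndep K →
      (∀ i φ, M i (ComplexEmbedding.conjugate φ) = M i φ) → (∀ i, n i ≠ 0) →
      (∀ i φ, M i φ ∣ (n i : ℤ)) → (∀ i, finrank ℚ (K i) = 2 * g i) →
      (∀ i, q i ∣ g i ∧ (q i = 1 ∨ (q i).Prime)) →
      ((exceptionalFamilies ν K M).ncard : ℝ) ≤
        2 ^ (∑ i, g i) * ∑ i, C * (n i : ℝ) ^ 2 * rate (K i) (g i) (q i)) ∧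
    WeightEstimate := by
  obtain ⟨C, hC0, hC⟩ := slope families_holds
  refine ⟨⟨C, hC0, ?_⟩, weight_estimate_holds⟩
  intro p _ ν I _ K _ _ _ M n g q hind hM hn hMn hg hq
  exact hC p ν I K M n g q hind hM hn hMn hg hq _ fun Φ h => holds_of K M Φ h

end Pool.Agent.Results.MP_16ef92_ag.AllCMFields
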