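import Pool.Agent.R942.PR.Main

/-!
# Semisimplicity of the eigenvalue one for varieties dominated by products of fibred surfaces

Let `κ` be a finite field with `q` elements. We consider the class (`IsBuilt`) of the smooth projective
varieties that are products of varieties of the following kinds:

* (`torsion`) elliptic surfaces over the projective line, semistable, with a section of prime order
  `ℓ = 2, 3, 5, 7` prime to `q`, in the normal form of Tate, with the explicit conditions of
  MP_1fe969_ag TorsionSections on the degrees of the closed points with singular fibres
  (`IsAdmissible`);
* (`branch`) for odd `q`, the (minimal resolutions of the) surfaces `y² = f(x, t)` over the projective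
  line, `f` monic of odd degree in `x` (elliptic surfaces, hyperelliptic fibrations), such that the
  characteristic polynomial of the Frobenius on the first cohomology of the branch curve `f = 0` is
  squarefree modulo `2`, see MP_1fe969_ag BranchCurves;
* (`known`) the varieties with semisimple Frobenius on all cohomology groups, for example all abelian
  varieties and all curves (Weil).

The first two kinds contain surfaces of arbitrary geometric genus. A variety is given by its cohomology
with compact supports with the Frobenius (`Coh`), and that of a product by the Künneth formula.

**Theorem.** For each variety `U` over `κ` - singular or open ones too - that is dominated by a variety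
`X` of this class (`IsDominated`: for example an open subvariety of `X`, the image of `X` under a proper
morphism, or any variety obtained by several such steps) the statement `SS_i (U)` holds for all `i`:
the eigenvalue one of the Frobenius on the homology `H_(2 i)(U, ℚ_ℓ(i))` is semisimple. In terms of the
dual group this is the semisimplicity of the eigenvalue `q ^ i` of the Frobenius on the cohomology with
compact supports of degree `2 i` (`SS`).

The proof. The Frobenius is semisimple on the second cohomology of the surfaces: its eigenvalues have
simple reductions modulo `ℓ` (modulo `2` for the second kind), except for `± q`, where one uses that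
unipotent isometries of nondegenerate quadratic spaces of dimension two are trivial. So it is
semisimple on the cohomology of the products. The kernel of `H^(2 i)_c(U) → H^(2 i)_c(X)` has weights
less than `2 i`, and the generalized eigenspace for `q ^ i` is mapped injectively (Deligne; this
descent is well known).
-/

set_option autoImplicit false

namespace Pool.Agent.Results.MP_16ef92_ag.DominatedByFibredSurfaces

open Polynomial Module Pool.Agent.R942.ES Pool.Agent.R942.PR

/-- The cohomology of the products of the surfaces of MP_1fe969_ag TorsionSections and BranchCurves,
and of varieties with semisimple Frobenius. -/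
inductive IsBuilt (κ : Type) [Field κ] [Fintype κ] (E : Type) [Field E] : Coh E → Prop
  /-- Frobenius is semisimple on all cohomology groups, for example abelian varieties and curves. -/
  | known (C : Coh E) (h : ∀ m, (C.F m).IsSemisimple) : IsBuilt κ E C
  /-- Elliptic surfaces with a section of prime order. -/
  | torsion (C : Coh E) (S : Surface κ) (hS : HasSection S)
      (T : Type) [AddCommGroup T] [Module E T] [FiniteDimensional E T] (Ψ : Module.End E T)
      (hΨ : IsPermuted (Fintype.card κ) Ψ)
      (W : Type) [AddCommGroup W] [Module E W] [FiniteDimensional E W] (Φ : Module.End E W)
      (B : W →ₗ[E] W →ₗ[E] E) (hC : IsCohomology S Φ B)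
      (h : IsAdmissible (Fintype.card κ) S.ℓ S.a S.b)
      (hX : IsSurface (Fintype.card κ) C (total Ψ Φ)) : IsBuilt κ E C
  /-- Surfaces `y² = f(x, t)`. -/
  | branch (C : Coh E) (h2 : (2 : κ) ≠ 0) (f : Pool.Agent.R942.DC.Branch κ)
      (T : Type) [AddCommGroup T] [Module E T] [FiniteDimensional E T] (Ψ : Module.End E T)
      (hΨ : IsPermuted (Fintype.card κ) Ψ)
      (W : Type) [AddCommGroup W] [Module E W] [FiniteDimensional E W] (Φ : Module.End E W)
      (hC : Pool.Agent.R942.DC.IsCohomology f Φ)
      (P : ℤ[X]) (A : Multiset E) (hP : Pool.Agent.R942.DC.IsCurvePolynomial f P A)
      (hdim : finrank E W = (P.map (Int.castRingHom (ZMod 2))).natDegree)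
      (hsq : Squarefree (P.map (Int.castRingHom (ZMod 2))))
      (hX : IsSurface (Fintype.card κ) C (total Ψ Φ)) : IsBuilt κ E C
  /-- Products. -/
  | prod {C D : Coh E} (hC : IsBuilt κ E C) (hD : IsBuilt κ E D) : IsBuilt κ E (C.prod D)

theorem semisimple_of_isBuilt {κ : Type} [Field κ] [Fintype κ] {E : Type} [Field E] [CharZero E]
    [IsAlgClosed E] {C : Coh E} (h : IsBuilt κ E C) : C.IsSemisimple := by
  induction h with
  | known C h => exact h
  | torsion C S hS T Ψ hΨ W Φ B hC h hX =>
    exact hX.semisimple (semisimple_prod (semisimple_permuted Fintype.card_ne_zero hΨ)
      (semisimple_of_admissible hS hC h))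
  | branch C h2 f T Ψ hΨ W Φ hC P A hP hdim hsq hX =>
    exact hX.semisimple (semisimple_prod (semisimple_permuted Fintype.card_ne_zero hΨ)
      (Pool.Agent.R942.DC.main h2 f hC hP hsq hdim).2)
  | prod _ _ h1 h2 => exact prod_semisimple h1 h2

/-- **`SS_i (U)` holds for all `i` for the varieties `U` dominated by the products of the class.** -/
theorem result (κ : Type) [Field κ] [Fintype κ] (E : Type) [Field E] [CharZero E] [IsAlgClosed E]
    (C : Coh E) (hC : IsBuilt κ E C) (D : Coh E) (hD : IsDominated (Fintype.card κ) D C) (i : ℕ) :
    SS (Fintype.card κ) D i :=
  ss_of_dominated hD (semisimple_of_isBuilt hC (2 * i))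

end Pool.Agent.Results.MP_16ef92_ag.DominatedByFibredSurfaces
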